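import Pool.Agent.U171.DR.Prod

/-!
# MP_c8df5e_gt, Q1: the d-reflection functor preserves arbitrary products of `T₀` spaces

The proof: a continuous map `μ : X → Z` into a d-space is a d-reflection of the `T₀` space `X` exactly
when it is inducing and its image is d-dense (every subset of `Z` closed under directed suprema
which contains the image is all of `Z`). For a product, let `C` be a subset closed under directed
suprema which contains the image of `∏ X i`. Changing finitely many coordinates of an image point to
arbitrary points keeps it in `C` (one coordinate at a time, by d-density in this coordinate). Given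
`z` in the product of the reflections, choose `a i : X i` with `μ i (a i) ≤ z i` (the points above
some point of the image are closed under directed suprema); then `z` is the supremum of the directed
family of points which agree with `z` on a finite set of coordinates and with the image of `a`
elsewhere.
-/

set_option autoImplicit false

universe u

namespace Pool.Agent.Results.MP_c8df5e_gt.Products

open Pool.Agent.U171.DR

/-- Every `T₀` space has a d-reflection. For every family of `T₀` spaces `X i` with d-reflections
`μ i : X i → Xd i`, the product map is a d-reflection of `∏ X i`; so every d-reflection of `∏ X i` is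
homeomorphic to `∏ Xd i`, by a homeomorphism compatible with the reflection maps. -/
theorem result :
    (∀ (X : Type u) [TopologicalSpace X] [T0Space X],
      ∃ (Z : Type u) (_ : TopologicalSpace Z) (μ : X → Z), IsDReflection μ) ∧
    ∀ (I : Type u) (X Xd : I → Type u) [∀ i, TopologicalSpace (X i)] [∀ i, T0Space (X i)]
      [∀ i, TopologicalSpace (Xd i)] (μ : ∀ i, X i → Xd i), (∀ i, IsDReflection (μ i)) →
      IsDReflection (fun (x : ∀ i, X i) i => μ i (x i)) ∧
      ∀ (Z : Type u) [TopologicalSpace Z] (ν : (∀ i, X i) → Z), IsDReflection ν →
        ∃ h : Z ≃ₜ (∀ i, Xd i), ∀ x i, h (ν x) i = μ i (x i) := by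
  refine ⟨fun X _ _ => ?_, fun I X Xd _ _ _ μ hμ => ?_⟩
  · obtain ⟨Z, t, μ, hZ, hi, hd⟩ := exists_dReflection X
    exact ⟨Z, t, μ, isDReflection_of hZ hi hd⟩
  · have hprod : IsDReflection (fun (x : ∀ i, X i) i => μ i (x i)) :=
      isDReflection_of (dspace_pi fun i => (hμ i).dspace)
        (Topology.IsInducing.piMap fun i => (inducing_ddense (hμ i)).1)
        (ddense_pi fun i => (inducing_ddense (hμ i)).2)
    refine ⟨hprod, fun Z _ ν hν => ?_⟩
    obtain ⟨h, hh⟩ := unique hν hprod
    exact ⟨h, fun x i => congrFun (congrFun hh x) i⟩

end Pool.Agent.Results.MP_c8df5e_gt.Products
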